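import Pool.Agent.Helper61.QE.St2
import Pool.Agent.Helper79.QD.M_RIJ

/-!
# Project QD, PART E, module GDQ: good quadruples
-/

open MeasureTheory Set Filter Topology Complex
open scoped ContDiff ComplexConjugate ENNReal

namespace Pool.Agent.Helper87.QE

open Pool.Agent.Helper68.QC Pool.Agent.Helper61.QE

/-- the quotient -/
private noncomputable def Kq (f : ℂ → ℂ) (a b : ℂ) : ℂ :=
  deriv f a * deriv f b * (a - b) ^ 2 / (f a - f b) ^ 2

private theorem Kq_symm (f : ℂ → ℂ) (a b : ℂ) : Kq f a b = Kq f b a := by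
  unfold Kq
  have h1 : (a - b) ^ 2 = (b - a) ^ 2 := by ring
  have h2 : (f a - f b) ^ 2 = (f b - f a) ^ 2 := by ring
  rw [h1, h2, mul_comm (deriv f a)]

private theorem Kq_sub (f : ℂ → ℂ) (a b : ℂ) (h : a ≠ b) :
    Kq f a b - 1 = dKern f a b * (a - b) ^ 2 := by
  unfold Kq dKern
  have h1 : (a - b) ^ 2 ≠ 0 := pow_ne_zero 2 (sub_ne_zero.mpr h)
  field_simp

private theorem Kq_bound (f : ℂ → ℂ) (a b : ℂ) (δ η : ℝ) (hδ : 0 < δ) (hab : δ ≤ ‖a - b‖)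
    (ha : ‖a‖ ≤ 1) (hb : ‖b‖ ≤ 1) (hη : η ≤ ‖Kq f a b - 1‖) : η / 4 ≤ ‖dKern f a b‖ := by
  have hne : a ≠ b := by
    intro h
    rw [h, sub_self, norm_zero] at hab
    linarith
  rw [Kq_sub f a b hne, norm_mul, norm_pow] at hη
  have h1 : ‖a - b‖ ≤ 2 := (norm_sub_le a b).trans (by linarith)
  have h2 : ‖a - b‖ ^ 2 ≤ 4 := by
    have := norm_nonneg (a - b)
    nlinarith
  have h3 := mul_le_mul_of_nonneg_left h2 (norm_nonneg (dKern f a b))
  linarith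

/-- Markov's inequality -/
private theorem markov (Ω B : Set ℂ) (hΩ : MeasurableSet Ω)
    (f : ℂ → ℝ≥0∞) (hf : Measurable f) (V c K : ℝ≥0∞) (m : ℕ) (hm : 1 ≤ m)
    (hV : volume Ω = V) (hVf : V ≠ ⊤) (hc : c ≠ ⊤) (hint : ∫⁻ a in Ω, f a ≤ K * V)
    (hK : K ≤ m * (c / 2)) (hcB : c * V ≤ volume (Ω ∩ B)) :
    c / 2 * V ≤ volume (Ω ∩ B ∩ {a | f a ≤ m}) := by
  have hmset : MeasurableSet {a | (m : ℝ≥0∞) < f a} := measurableSet_lt measurable_const hf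
  have hw : volume (Ω ∩ {a | (m : ℝ≥0∞) < f a}) ≤ c / 2 * V := by
    have h1 := mul_meas_ge_le_lintegral (μ := volume.restrict Ω) hf (m : ℝ≥0∞)
    have h2 : (volume.restrict Ω) {a | (m : ℝ≥0∞) < f a} ≤
        (volume.restrict Ω) {a | (m : ℝ≥0∞) ≤ f a} := by
      apply measure_mono
      intro a ha
      have ha' : (m : ℝ≥0∞) < f a := ha
      exact ha'.le
    rw [Measure.restrict_apply hmset] at h2
    have h3 : (m : ℝ≥0∞) * volume (Ω ∩ {a | (m : ℝ≥0∞) < f a}) ≤ (m : ℝ≥0∞) * (c / 2 * V) := by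
      calc (m : ℝ≥0∞) * volume (Ω ∩ {a | (m : ℝ≥0∞) < f a})
          ≤ (m : ℝ≥0∞) * (volume.restrict Ω) {a | (m : ℝ≥0∞) ≤ f a} := by
            rw [inter_comm]
            exact mul_le_mul' le_rfl h2
        _ ≤ ∫⁻ a in Ω, f a := h1
        _ ≤ K * V := hint
        _ ≤ (m * (c / 2)) * V := mul_le_mul' hK le_rfl
        _ = (m : ℝ≥0∞) * (c / 2 * V) := mul_assoc _ _ _
    have hm0 : (m : ℝ≥0∞) ≠ 0 := by
      have : m ≠ 0 := by omega
      exact_mod_cast this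
    exact (ENNReal.mul_le_mul_iff_right hm0 (ENNReal.natCast_ne_top m)).mp h3
  have h4 : volume (Ω ∩ B) ≤ volume (Ω ∩ B ∩ {a | f a ≤ m}) +
      volume (Ω ∩ {a | (m : ℝ≥0∞) < f a}) := by
    refine le_trans (measure_mono ?_) (measure_union_le _ _)
    intro a ha
    rcases le_or_gt (f a) m with h | h
    · exact Or.inl ⟨ha, h⟩
    · exact Or.inr ⟨ha.1, h⟩
  have h5 : c / 2 * V + c / 2 * V ≤ volume (Ω ∩ B ∩ {a | f a ≤ m}) + c / 2 * V := by
    rw [← add_mul, ENNReal.add_halves]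
    exact hcB.trans (h4.trans (add_le_add le_rfl hw))
  have hfin : c / 2 * V ≠ ⊤ :=
    ENNReal.mul_ne_top (ENNReal.div_ne_top hc (by norm_num)) hVf
  exact (ENNReal.add_le_add_iff_right hfin).mp h5

/-- the numerical inequality for large `n` -/
private theorem large_n (K c : ℝ≥0∞) (hK : K ≠ ⊤) (hc : c ≠ 0) :
    ∀ᶠ n : ℕ in atTop, ∀ V : ℝ≥0∞, V ≠ 0 → V ≠ ⊤ →
      6 * (K * (ENNReal.ofReal (1 / ((n : ℝ) + 1)) * V ^ 2)) * V ^ 2 < (c / 2 * V) ^ 4 := by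
  have h1 : Tendsto (fun n : ℕ => ENNReal.ofReal (1 / ((n : ℝ) + 1))) atTop (𝓝 0) := by
    have := ENNReal.tendsto_ofReal (tendsto_one_div_add_atTop_nhds_zero_nat (𝕜 := ℝ))
    rwa [ENNReal.ofReal_zero] at this
  have h2 : Tendsto (fun n : ℕ => 6 * K * ENNReal.ofReal (1 / ((n : ℝ) + 1))) atTop
      (𝓝 (6 * K * 0)) :=
    ENNReal.Tendsto.const_mul h1 (Or.inr (ENNReal.mul_ne_top (by norm_num) hK))
  rw [mul_zero] at h2
  have hpos : 0 < (c / 2) ^ 4 := by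
    apply pos_iff_ne_zero.mpr
    apply pow_ne_zero
    exact ENNReal.div_ne_zero.mpr ⟨hc, by norm_num⟩
  filter_upwards [h2.eventually (gt_mem_nhds hpos)] with n hn V hV0 hVt
  have e1 : 6 * (K * (ENNReal.ofReal (1 / ((n : ℝ) + 1)) * V ^ 2)) * V ^ 2 =
      (6 * K * ENNReal.ofReal (1 / ((n : ℝ) + 1))) * V ^ 4 := by ring
  rw [e1, mul_pow]
  exact (ENNReal.mul_lt_mul_iff_left (pow_ne_zero 4 hV0) (ENNReal.pow_ne_top hVt)).mpr hn

/-- the measure of the bad set -/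
private theorem bad_set (Ω : Set ℂ) (hΩ : MeasurableSet Ω) (hΩ1 : ∀ a ∈ Ω, ‖a‖ ≤ 1)
    (f : ℂ → ℂ) (E S : Set (ℂ × ℂ)) (hE : MeasurableSet E) (δ η : ℝ) (hδ : 0 < δ) (hη : 0 < η)
    (L : ℝ≥0∞)
    (hES : ∀ x ∈ E, x ∈ S ∧ x.1 ∈ Ω ∧ x.2 ∈ Ω ∧ δ ≤ ‖x.1 - x.2‖ ∧ η ≤ ‖Kq f x.1 x.2 - 1‖)
    (hL : ∫⁻ a in Ω, ∫⁻ b in Ω,
      S.indicator (fun x => ENNReal.ofReal (‖dKern f x.1 x.2‖ ^ 2)) (a, b) ≤ L) :
    ((volume.restrict Ω).prod (volume.restrict Ω)) E ≤ ENNReal.ofReal (16 / η ^ 2) * L := by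
  have h1 : ((volume.restrict Ω).prod (volume.restrict Ω)) E =
      ∫⁻ a in Ω, ∫⁻ b in Ω, E.indicator (fun _ => (1 : ℝ≥0∞)) (a, b) := by
    rw [Measure.prod_apply hE]
    apply lintegral_congr
    intro a
    have h2 : (fun b => E.indicator (fun _ => (1 : ℝ≥0∞)) (a, b)) =
        (Prod.mk a ⁻¹' E).indicator (fun _ => (1 : ℝ≥0∞)) := rfl
    rw [h2, lintegral_indicator (measurable_prodMk_left hE), lintegral_const, one_mul,
      Measure.restrict_apply_univ]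
  have h3 : ENNReal.ofReal ((η / 4) ^ 2) * ((volume.restrict Ω).prod (volume.restrict Ω)) E ≤ L := by
    refine le_trans ?_ hL
    rw [h1, ← lintegral_const_mul']
    · apply lintegral_mono
      intro a
      simp only
      rw [← lintegral_const_mul']
      · apply lintegral_mono
        intro b
        simp only
        by_cases hx : (a, b) ∈ E
        · obtain ⟨k1, k2, k3, k4, k5⟩ := hES _ hx
          rw [indicator_of_mem hx, indicator_of_mem k1, mul_one]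
          apply ENNReal.ofReal_le_ofReal
          have := Kq_bound f a b δ η hδ k4 (hΩ1 a k2) (hΩ1 b k3) k5
          exact pow_le_pow_left₀ (by positivity) this 2
        · rw [indicator_of_notMem hx, mul_zero]
          exact bot_le
      · exact ENNReal.ofReal_ne_top
    · exact ENNReal.ofReal_ne_top
  have h4 : ENNReal.ofReal (16 / η ^ 2) * ENNReal.ofReal ((η / 4) ^ 2) = 1 := by
    rw [← ENNReal.ofReal_mul (by positivity)]
    have : 16 / η ^ 2 * (η / 4) ^ 2 = 1 := by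
      field_simp
      norm_num
    rw [this, ENNReal.ofReal_one]
  calc ((volume.restrict Ω).prod (volume.restrict Ω)) E
      = ENNReal.ofReal (16 / η ^ 2) * (ENNReal.ofReal ((η / 4) ^ 2) *
        ((volume.restrict Ω).prod (volume.restrict Ω)) E) := by
        rw [← mul_assoc, h4, one_mul]
    _ ≤ _ := mul_le_mul' le_rfl h3

theorem pGDQ (hCNF : Pool.Agent.Helper68.QC.StCNF) (hCNT : Pool.Agent.Helper61.QE.StCNT)
    (hUNF : Pool.Agent.Helper61.QE.StUNF) (hTUP : Pool.Agent.Helper61.QE.StTUP) :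
    Pool.Agent.Helper61.QE.StGDQ := by
  intro Γ _ s F h t0 G N R R' U hs hF ht0 hSq hU x hx hxne ε hε η hη
  -- the minimal distance
  obtain ⟨d, hd0, hd⟩ : ∃ d : ℝ, 0 < d ∧ ∀ i j : Fin 4, i ≠ j → d ≤ ‖x i - x j‖ := by
    have hne : (Finset.univ.filter (fun p : Fin 4 × Fin 4 => p.1 ≠ p.2)).Nonempty :=
      ⟨(0, 1), by simp⟩
    obtain ⟨p, hp, hmin⟩ := Finset.exists_min_image
      (Finset.univ.filter (fun p : Fin 4 × Fin 4 => p.1 ≠ p.2)) (fun p => ‖x p.1 - x p.2‖) hne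
    refine ⟨‖x p.1 - x p.2‖, ?_, ?_⟩
    · rw [Finset.mem_filter] at hp
      exact norm_pos_iff.mpr (sub_ne_zero.mpr (hxne _ _ hp.2))
    · intro i j hij
      exact hmin (i, j) (by simp [hij])
  set ε' : ℝ := min ε (d / 4) with hε'
  have hε'0 : 0 < ε' := lt_min hε (by positivity)
  set δ : ℝ := d / 2 with hδ
  have hδ0 : 0 < δ := by positivity
  have hdist : ∀ i j : Fin 4, i ≠ j → ∀ a ∈ Metric.ball (x i) ε', ∀ b ∈ Metric.ball (x j) ε',
      δ ≤ ‖a - b‖ := by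
    intro i j hij a ha b hb
    have h1 := hd i j hij
    have h2 : ε' ≤ d / 4 := min_le_right _ _
    rw [mem_ball_iff_norm] at ha hb
    have h3 : x i - x j = (a - b) - (a - x i) + (b - x j) := by ring
    have h4 : ‖x i - x j‖ ≤ ‖a - b‖ + ‖a - x i‖ + ‖b - x j‖ := by
      rw [h3]
      exact (norm_add_le _ _).trans (add_le_add (norm_sub_le _ _) le_rfl)
    linarith
  -- the constants
  choose c hc0 hct hcev using fun i => hx i ε' hε'0
  obtain ⟨c₀, hc₀0, hc₀t, hc₀⟩ : ∃ c₀ : ℝ≥0∞, c₀ ≠ 0 ∧ c₀ ≠ ⊤ ∧ ∀ i, c₀ ≤ c i := by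
    refine ⟨min (min (c 0) (c 1)) (min (c 2) (c 3)), ?_, ?_, ?_⟩
    · apply ne_of_gt
      exact lt_min (lt_min (hc0 0) (hc0 1)) (lt_min (hc0 2) (hc0 3))
    · exact ne_top_of_le_ne_top (hct 0) ((min_le_left _ _).trans (min_le_left _ _))
    · intro i
      fin_cases i
      · exact (min_le_left _ _).trans (min_le_left _ _)
      · exact (min_le_left _ _).trans (min_le_right _ _)
      · exact (min_le_right _ _).trans (min_le_left _ _)
      · exact (min_le_right _ _).trans (min_le_right _ _)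
  obtain ⟨C, hC0, hC⟩ := hCNT Γ s F hs hF δ hδ0
  obtain ⟨m, hm1, hm⟩ : ∃ m : ℕ, 1 ≤ m ∧ ENNReal.ofReal C ≤ m * (c₀ / 2) := by
    have hh0 : c₀ / 2 ≠ 0 := ENNReal.div_ne_zero.mpr ⟨hc₀0, by norm_num⟩
    have hht : c₀ / 2 ≠ ⊤ := ENNReal.div_ne_top hc₀t (by norm_num)
    obtain ⟨m, hm⟩ := ENNReal.exists_nat_gt (r := ENNReal.ofReal C / (c₀ / 2))
      (ENNReal.div_ne_top ENNReal.ofReal_ne_top hh0)
    refine ⟨m + 1, by omega, ?_⟩
    have h1 := (ENNReal.div_le_iff hh0 hht).mp hm.le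
    refine h1.trans (mul_le_mul' ?_ le_rfl)
    push_cast
    exact le_self_add
  have hKfin : ENNReal.ofReal (16 / η ^ 2) * (2 * (m : ℝ≥0∞) + 1) ≠ ⊤ := by
    apply ENNReal.mul_ne_top ENNReal.ofReal_ne_top
    exact ENNReal.add_ne_top.mpr ⟨ENNReal.mul_ne_top (by norm_num) (ENNReal.natCast_ne_top m),
      by norm_num⟩
  have hlarge := hU (large_n (ENNReal.ofReal (16 / η ^ 2) * (2 * (m : ℝ≥0∞) + 1)) c₀ hKfin hc₀0)
  have hall : ∀ᶠ n in (U : Filter ℕ), ∀ i : Fin 4,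
      c i * volume (G n '' D) ≤ volume (G n '' D ∩ Metric.ball (x i) ε') :=
    eventually_all.mpr hcev
  filter_upwards [hlarge, hall] with n hn1 hn2
  set Ω : Set ℂ := G n '' D with hΩdef
  have hΩo : IsOpen Ω := (G n).isOpenMap _ Metric.isOpen_ball
  have hΩm : MeasurableSet Ω := hΩo.measurableSet
  have hgd := hSq.gd n
  have hΩ1 : ∀ a ∈ Ω, ‖a‖ ≤ 1 := by
    rintro _ ⟨z, hz, rfl⟩
    exact hgd.le z (by rw [mem_ball_zero_iff] at hz; exact hz.le)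
  have hΩne : Ω.Nonempty := ⟨G n 0, 0, by simp, rfl⟩
  have hV0 : volume Ω ≠ 0 := (hΩo.measure_pos volume hΩne).ne'
  have hVt : volume Ω ≠ ⊤ := by
    have h1 : Ω ⊆ Metric.closedBall 0 1 := fun a ha => by
      rw [mem_closedBall_zero_iff]; exact hΩ1 a ha
    exact ne_top_of_le_ne_top (isCompact_closedBall (0 : ℂ) 1).measure_lt_top.ne
      (measure_mono h1)
  set Φ : ℂ ≃ₜ ℂ := nq (N n) with hΦ
  have hΦd : DifferentiableOn ℂ Φ Ω := hCNF _ ht0 _ (hSq.nbel n) Ω hΩo (hSq.nout n)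
  have hΦne : ∀ a ∈ Ω, deriv Φ a ≠ 0 :=
    (Pool.Agent.Helper79.QD.hRIJ Ω Φ hΩo hΦd Φ.injective.injOn).1
  obtain ⟨hNdm, hNdi⟩ := hC (G n) hgd (R n) (hSq.gint n)
  have hunf := hUNF Γ s F (G n) Φ (R n) (R' n) hs hF hgd (hSq.gint n) (hSq.pint n) hΦd hΦne δ
    hδ0 hNdm m
  have hsmall := hSq.small n
  set S : Set (ℂ × ℂ) := {x : ℂ × ℂ | Nd (R n) δ x.1 ≤ m ∧ Nd (R n) δ x.2 ≤ m ∧
      δ ≤ ‖x.1 - x.2‖} with hS
  have hL : ∫⁻ a in Ω, ∫⁻ b in Ω,
      S.indicator (fun x => ENNReal.ofReal (‖dKern Φ x.1 x.2‖ ^ 2)) (a, b) ≤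
      (2 * (m : ℝ≥0∞) + 1) * (ENNReal.ofReal (1 / ((n : ℝ) + 1)) * volume Ω ^ 2) :=
    hunf.trans (mul_le_mul' le_rfl hsmall)
  -- the bad set
  set E : Set (ℂ × ℂ) := {y : ℂ × ℂ | (y.1 ∈ Ω ∧ y.2 ∈ Ω) ∧ (Nd (R n) δ y.1 ≤ m ∧
      Nd (R n) δ y.2 ≤ m) ∧ δ ≤ ‖y.1 - y.2‖ ∧ η ≤ ‖Kq Φ y.1 y.2 - 1‖} with hE
  have hKm : Measurable (fun y : ℂ × ℂ => Kq Φ y.1 y.2) := by
    unfold Kq
    have d1 : Measurable (deriv (Φ : ℂ → ℂ)) := measurable_deriv _
    have d2 : Measurable (Φ : ℂ → ℂ) := Φ.continuous.measurable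
    exact (((d1.comp measurable_fst).mul (d1.comp measurable_snd)).mul
      ((measurable_fst.sub measurable_snd).pow_const 2)).div
      (((d2.comp measurable_fst).sub (d2.comp measurable_snd)).pow_const 2)
  have hEm : MeasurableSet E := by
    have e1 : MeasurableSet {y : ℂ × ℂ | y.1 ∈ Ω ∧ y.2 ∈ Ω} :=
      (measurable_fst hΩm).inter (measurable_snd hΩm)
    have e2 : MeasurableSet {y : ℂ × ℂ | Nd (R n) δ y.1 ≤ m ∧ Nd (R n) δ y.2 ≤ m} :=
      (measurableSet_le (hNdm.comp measurable_fst) measurable_const).inter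
        (measurableSet_le (hNdm.comp measurable_snd) measurable_const)
    have e3 : MeasurableSet {y : ℂ × ℂ | δ ≤ ‖y.1 - y.2‖} :=
      measurableSet_le measurable_const (measurable_fst.sub measurable_snd).norm
    have e4 : MeasurableSet {y : ℂ × ℂ | η ≤ ‖Kq Φ y.1 y.2 - 1‖} :=
      measurableSet_le measurable_const (hKm.sub measurable_const).norm
    exact e1.inter (e2.inter (e3.inter e4))
  have hEs : ∀ y, y ∈ E → y.swap ∈ E := by
    rintro ⟨a, b⟩ ⟨⟨k1, k2⟩, ⟨k3, k4⟩, k5, k6⟩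
    refine ⟨⟨k2, k1⟩, ⟨k4, k3⟩, ?_, ?_⟩
    · show δ ≤ ‖b - a‖
      rw [norm_sub_rev]
      exact k5
    · show η ≤ ‖Kq Φ b a - 1‖
      rw [Kq_symm]
      exact k6
  have hbad := bad_set Ω hΩm hΩ1 Φ E S hEm δ η hδ0 hη _ (by
    rintro ⟨a, b⟩ ⟨⟨k1, k2⟩, ⟨k3, k4⟩, k5, k6⟩
    exact ⟨⟨k3, k4, k5⟩, k1, k2, k5, k6⟩) hL
  -- the sets `A i`
  have hA : ∀ i : Fin 4, c₀ / 2 * volume Ω ≤
      volume (Ω ∩ Metric.ball (x i) ε' ∩ {a | Nd (R n) δ a ≤ m}) := by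
    intro i
    exact markov Ω (Metric.ball (x i) ε') hΩm (Nd (R n) δ) hNdm (volume Ω) c₀ (ENNReal.ofReal C) m
      hm1 rfl hVt hc₀t hNdi hm ((mul_le_mul' (hc₀ i) le_rfl).trans (hn2 i))
  have hNdset : MeasurableSet {a | Nd (R n) δ a ≤ m} := measurableSet_le hNdm measurable_const
  have : IsFiniteMeasure (volume.restrict Ω) := ⟨by
    rw [Measure.restrict_apply_univ]; exact hVt.lt_top⟩
  obtain ⟨a, ha, haE⟩ := hTUP (volume.restrict Ω)
    (fun i => Ω ∩ Metric.ball (x i) ε' ∩ {a | Nd (R n) δ a ≤ m}) E (c₀ / 2 * volume Ω)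
    (ENNReal.ofReal (16 / η ^ 2) * (2 * (m : ℝ≥0∞) + 1) *
      (ENNReal.ofReal (1 / ((n : ℝ) + 1)) * volume Ω ^ 2)) hEm hEs
    (fun i => (hΩm.inter measurableSet_ball).inter hNdset)
    (fun i => by
      rw [Measure.restrict_apply ((hΩm.inter measurableSet_ball).inter hNdset)]
      have : Ω ∩ Metric.ball (x i) ε' ∩ {a | Nd (R n) δ a ≤ m} ∩ Ω =
          Ω ∩ Metric.ball (x i) ε' ∩ {a | Nd (R n) δ a ≤ m} :=
        inter_eq_left.mpr (fun y hy => hy.1.1)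
      rw [this]
      exact hA i)
    (fun i j _ => by
      refine (measure_mono inter_subset_left).trans (hbad.trans (le_of_eq ?_))
      rw [mul_assoc])
    (by
      rw [Measure.restrict_apply_univ]
      exact hn1 (volume Ω) hV0 hVt)
  refine ⟨a, fun i => ⟨(ha i).1.1, ?_⟩, ?_⟩
  · exact Metric.ball_subset_ball (min_le_left _ _) (ha i).1.2
  · intro i j hij
    by_contra hcon
    push Not at hcon
    apply haE i j hij
    exact ⟨⟨(ha i).1.1, (ha j).1.1⟩, ⟨(ha i).2, (ha j).2⟩,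
      hdist i j hij _ (ha i).1.2 _ (ha j).1.2, hcon⟩

end Pool.Agent.Helper87.QE
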